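import Mathlib

namespace Pool.Agent.MP_249dba_lc

/-- `D` describes a name that `p` forces to be a function from `A` to `Z`;
`D q a z` reads: `q` forces that the value at `a` is `z`. -/
structure FN {P A Z : Type} [Preorder P] (D : P → A → Z → Prop) (p : P) : Prop where
  mono : ∀ q r a z, r ≤ q → D q a z → D r a z
  func : ∀ q a z z', D q a z → D q a z' → z = z'
  tot : ∀ q ≤ p, ∀ a, ∃ r ≤ q, ∃ z, D r a z

/-- `P` adds no function from `A` to `Z`. -/
def Dist (P : Type) [Preorder P] (A Z : Type) : Prop :=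
  ∀ (D : P → A → Z → Prop) (p : P), FN D p →
    ∃ q ≤ p, ∃ f : A → Z, ∀ a, ∀ r ≤ q, ∃ s ≤ r, D s a (f a)

/-- `X` is closed under `F`. -/
def Closed {Z : Type} (F : List Z → Z) (X : Set Z) : Prop := ∀ l, (∀ x ∈ l, x ∈ X) → F l ∈ X

/-- `P` preserves every stationary family of countable sets. -/
def Proper (P : Type) [Preorder P] : Prop :=
  ∀ (Z : Type) (S : Set (Set Z)), (∀ X ∈ S, X.Countable) → (∀ F, ∃ X ∈ S, Closed F X) →
    ∀ (D : P → List Z → Z → Prop) (p : P), FN D p →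
      ∃ q ≤ p, ∃ X ∈ S, ∀ l, (∀ x ∈ l, x ∈ X) → ∀ r ≤ q, ∃ s ≤ r, ∃ z ∈ X, D s l z

end Pool.Agent.MP_249dba_lc
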