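import Pool.Agent.MP_249dba_lc.Defs

namespace Pool.Agent.MP_249dba_lc

/-- `p` forces that the function named by `D` is onto `Z`. -/
def Onto {P A Z : Type} [Preorder P] (D : P → A → Z → Prop) (p : P) : Prop :=
  ∀ z, ∀ q ≤ p, ∃ r ≤ q, ∃ a, D r a z

/-- Below `p`, `P` preserves every stationary family of countable subsets of `Z`. -/
def ProperAt (P : Type) [Preorder P] (Z : Type) (p : P) : Prop :=
  ∀ S : Set (Set Z), (∀ X ∈ S, X.Countable) → (∀ F, ∃ X ∈ S, Closed F X) →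
    ∀ (D : P → List Z → Z → Prop), ∀ q ≤ p, FN D q →
      ∃ r ≤ q, ∃ X ∈ S, ∀ l, (∀ x ∈ l, x ∈ X) → ∀ s ≤ r, ∃ t ≤ s, ∃ z ∈ X, D t l z

end Pool.Agent.MP_249dba_lc
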