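import Pool.Agent.MP_c6cf52_lc.Names

namespace Pool.Agent.MP_249dba_lc

open Pool.Agent.MP_c6cf52_lc

universe u

section

variable {M : Type u} (E : M → M → Prop)

/-- `a` is a subset of `b`. -/
def Sub (a b : M) : Prop := ∀ x, E x a → E x b

/-- The intersection of `a` and `b` belongs to `I`. -/
def Null (I a b : M) : Prop := ∃ c, E c I ∧ ∀ x, E x c ↔ E x a ∧ E x b

/-- `W` is an `I`-partition of `S`. -/
def PartM (I S W : M) : Prop :=
  (∀ X, E X W → Sub E X S ∧ ¬ E X I) ∧ (∀ X Y, E X W → E Y W → X ≠ Y → Null E I X Y) ∧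
    ∀ Y, Sub E Y S → ¬ E Y I → ∃ X, E X W ∧ ¬ Null E I X Y

/-- The ideal `I` on `k` is precipitous (Jech and Prikry); `w` plays the role of omega. -/
def PrecM (w k I : M) : Prop :=
  ∀ S f D, Sub E S k → ¬ E S I → IsFun E f w D → (∀ n W, App E f n W → PartM E I S W) →
    (∀ n m W W', E n m → App E f n W → App E f m W' → ∀ X, E X W' → ∃ Y, E Y W ∧ Sub E X Y) →
    ∃ x D', IsFun E x w D' ∧ (∀ n W X, App E f n W → App E x n X → E X W) ∧
      (∀ n m X Y, E n m → App E x n X → App E x m Y → Sub E Y X) ∧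
      ∃ a, ∀ n X, App E x n X → E a X

end

variable (P : Type) [Preorder P] [OrderTop P] {K : Type} [LinearOrder K] [WellFoundedLT K]

/-- The canonical name of a subset of a well-order. -/
noncomputable def sN (A : Set K) : Name P := Name.setN (wellFounded_lt (α := K)) A

/-- The canonical name of the ideal dual to `F`. -/
noncomputable def idl (F : Filter K) : Name P :=
  Name.fam fun A : {A : Set K // Aᶜ ∈ F} => sN P A.1

end Pool.Agent.MP_249dba_lc
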